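import Pool.Agent.H25CC.Mono

set_option autoImplicit false
set_option linter.unusedSectionVars false

/-! The comparison of the moments: functions with small Fourier coefficients. -/

namespace Pool.Agent.H25CC

open Finset
open Q282.CL (av av_sum av_mul av_const)
open Q285HS (sm)
open H41N.MD (Sur fe me Qs sm_pow fib image_sub image_card av_sur sur_fe mom_id mixed_pow full_pow same_pow)

variable {ι K : Type} [AddCommGroup K] [Fintype K] [Fintype ι] [DecidableEq ι] {p : ℕ} [hp : Fact p.Prime]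
variable {e : ι → K →+ ZMod p} {A : Finset ι} {𝓛 : Finset (Finset ι)} {r M : ℕ}

/-- one tuple on a line -/
lemma tuple_four (h : Qs e A 𝓛 r M) (hrM : r ≤ M) {S : Finset ι} (hS : S ⊆ A) (ψ : ι → ZMod p → ℝ) (hψ : ∀ t z, |ψ t z| ≤ 1)
    (B : ℝ) (hB : 1 ≤ B) (hF : ∀ t (q : ℕ) c, c ≠ 0 → ‖FT p (fun z => ψ t z ^ q) c‖ ≤ B * Real.sqrt p) (q : ι → ℕ) (m : ℕ) (hm : S.card ≤ m) :
    |av (fun c => ∏ t ∈ S, ψ t (e t c) ^ q t) - ∏ t ∈ S, av (fun z => ψ t z ^ q t)| ≤ (2 * B * Real.sqrt p) ^ m / (p : ℝ) ^ r := by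
  have hp1 : (1 : ℝ) ≤ p := by exact_mod_cast hp.out.one_lt.le
  have hp0 : (0 : ℝ) < p := by linarith
  have hsq : (1 : ℝ) ≤ Real.sqrt p := Real.one_le_sqrt.2 hp1
  have hr : ∀ T : Finset ↥S, T.card ≤ r → Sur (fun t : ↥S => e t) T := by
    intro T hT z
    have h1 : Sur e (T.map (Function.Embedding.subtype _)) := by
      refine h.small _ ?_ ?_ ?_
      · intro t ht
        obtain ⟨x, _, rfl⟩ := mem_map.1 ht
        exact hS x.2
      · rw [card_map]; exact hT.trans hrM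
      · rw [card_map]; exact hT
    obtain ⟨c, hc⟩ := h1 (fun t => if ht : t ∈ S then z ⟨t, ht⟩ else 0)
    refine ⟨c, fun t ht => ?_⟩
    have h2 := hc t.1 (mem_map.2 ⟨t, ht, rfl⟩)
    rw [dif_pos t.2] at h2
    exact h2
  have h4 := four (σ := ↥S) (fun t : ↥S => e t) r hr (fun t z => ψ t z ^ q t) B hB (fun t v => by
      rw [abs_pow]
      exact pow_le_one₀ (abs_nonneg _) (hψ t v)) (fun t c hc => hF t (q t) c hc)
  have e1 : ∀ k : K, ∏ t : ↥S, ψ t (e t k) ^ q t = ∏ t ∈ S, ψ t (e t k) ^ q t := fun k =>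
    prod_coe_sort S (fun t => ψ t (e t k) ^ q t)
  have e2 : ∏ t : ↥S, av (fun z => ψ t z ^ q t) = ∏ t ∈ S, av (fun z => ψ t z ^ q t) :=
    prod_coe_sort S (fun t => av (fun z => ψ t z ^ q t))
  simp only [e1] at h4
  rw [e2, Fintype.card_coe, ← mul_pow] at h4
  refine h4.trans (div_le_div_of_nonneg_right ?_ (by positivity))
  refine pow_le_pow_right₀ ?_ hm
  nlinarith

/-- the moments of the sum over a line -/
lemma line_four (h : Qs e A 𝓛 r M) (hrM : r ≤ M) {L : Finset ι} (hL : L ∈ 𝓛) (ψ : ι → ZMod p → ℝ) (hψ : ∀ t z, |ψ t z| ≤ 1)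
    (B : ℝ) (hB : 1 ≤ B) (hF : ∀ t (q : ℕ) c, c ≠ 0 → ‖FT p (fun z => ψ t z ^ q) c‖ ≤ B * Real.sqrt p) (m : ℕ) :
    |av (fun c => sm e L ψ c ^ m) - av (fun c => sm (fe ι (ZMod p)) L ψ c ^ m)| ≤
      (2 * B * Real.sqrt p) ^ m / (p : ℝ) ^ r * (L.card : ℝ) ^ m := by
  have hLA := h.sub L hL
  simp only [sm_pow, av_sum]
  rw [← sum_sub_distrib]
  refine (abs_sum_le_sum_abs _ _).trans ?_
  have h1 : ∀ b ∈ Fintype.piFinset fun _ : Fin m => L,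
      |av (fun c => ∏ j, ψ (b j) (e (b j) c)) - av (fun c => ∏ j, ψ (b j) (fe ι (ZMod p) (b j) c))| ≤
        (2 * B * Real.sqrt p) ^ m / (p : ℝ) ^ r := by
    intro b hb
    obtain ⟨q, hq⟩ := fib b
    have e1 : ∀ c, ∏ j, ψ (b j) (e (b j) c) = ∏ t ∈ univ.image b, ψ t (e t c) ^ q t := fun c => hq fun t => ψ t (e t c)
    have e2 : ∀ c, ∏ j, ψ (b j) (fe ι (ZMod p) (b j) c) = ∏ t ∈ univ.image b, (fun t z => ψ t z ^ q t) t (fe ι (ZMod p) t c) :=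
      fun c => hq fun t => ψ t (fe ι (ZMod p) t c)
    simp only [e1, e2]
    rw [av_sur (sur_fe (univ.image b)) fun t z => ψ t z ^ q t]
    exact tuple_four h hrM ((image_sub hb).trans hLA) ψ hψ B hB hF q m (image_card b)
  refine (sum_le_sum h1).trans ?_
  rw [sum_const, Fintype.card_piFinset, nsmul_eq_mul, prod_const, card_univ, Fintype.card_fin]
  push_cast
  rw [mul_comm]

/-- **The comparison of the moments.** -/
theorem cmp_four (h : Qs e A 𝓛 r M) (hrM : r ≤ M) (ψ : ι → ZMod p → ℝ) (hψ : ∀ t z, |ψ t z| ≤ 1)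
    (B : ℝ) (hB : 1 ≤ B) (hF : ∀ t (q : ℕ) c, c ≠ 0 → ‖FT p (fun z => ψ t z ^ q) c‖ ≤ B * Real.sqrt p) (k : ℕ) (hk : k ≤ M) :
    |av (fun c => sm e A ψ c ^ k) - av (fun c => sm (fe ι (ZMod p)) A ψ c ^ k)| ≤
      ∑ L ∈ 𝓛, ∑ m ∈ range (k + 1), if r < m then (k.choose m : ℝ) * (((2 * B * Real.sqrt p) ^ m / (p : ℝ) ^ r * (L.card : ℝ) ^ m) *
        |av (fun c => sm (fe ι (ZMod p)) (A \ L) ψ c ^ (k - m))|) else 0 := by
  rw [mom_id h ψ k hk]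
  refine (abs_sum_le_sum_abs _ _).trans (sum_le_sum fun L hL => ?_)
  rw [mixed_pow (h.sub L hL) ψ k, full_pow (h.sub L hL) ψ k, ← sum_sub_distrib]
  refine (abs_sum_le_sum_abs _ _).trans (sum_le_sum fun m hm => ?_)
  rw [← mul_sub, ← sub_mul, abs_mul, abs_mul, Nat.abs_cast]
  split_ifs with hrm
  · refine mul_le_mul_of_nonneg_left (mul_le_mul_of_nonneg_right (line_four h hrM hL ψ hψ B hB hF m) (abs_nonneg _)) (Nat.cast_nonneg _)
  · rw [not_lt] at hrm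
    have h1 : av (fun c => sm e L ψ c ^ m) = av (fun c => sm (fe ι (ZMod p)) L ψ c ^ m) :=
      same_pow _ _ L m (fun S hS hSm => h.small S (hS.trans (h.sub L hL)) (hSm.trans (hrm.trans hrM)) (hSm.trans hrm)) (fun S _ _ => sur_fe S) ψ
    rw [h1, sub_self, abs_zero, zero_mul, mul_zero]

/-- the numerical estimate for one line -/
lemma num_four (s N ℓ R Q : ℝ) (r k m D : ℕ) (hs : 1 ≤ s) (hN : 0 < N) (hR2 : R ^ 2 = N) (hRs : s ^ D / 2 ≤ R) (hℓ0 : 0 ≤ ℓ) (hℓ : ℓ ≤ 2 * s ^ 2)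
    (hQ : 1 ≤ Q) (hm : 4 ≤ m) (hmk : m ≤ k) (hnum : 3 * m + 4 * D ≤ D * m + 2 * r + 3) :
    (Q * s) ^ m / (s ^ 2) ^ r * ℓ ^ m * R ^ (k - m) ≤ Q ^ k * 4 ^ k * (ℓ ^ 2 / N ^ 2) * (R ^ k / s) := by
  have hs0 : 0 < s := by linarith
  have hsD : 0 < s ^ D := pow_pos hs0 D
  have hR0 : 0 < R := by linarith
  have hQ0 : 0 < Q := by linarith
  obtain ⟨b, rfl⟩ : ∃ b, m = b + 4 := ⟨m - 4, by omega⟩
  obtain ⟨c, rfl⟩ : ∃ c, k = c + (b + 4) := ⟨k - (b + 4), by omega⟩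
  rw [Nat.add_sub_cancel]
  have hnum' : 3 * b + 9 ≤ 2 * r + D * b := by nlinarith
  have hR4 : R ^ 4 = N ^ 2 := by
    have : R ^ 4 = (R ^ 2) ^ 2 := by ring
    rw [this, hR2]
  have h1 : Q ^ (c + (b + 4)) * 4 ^ (c + (b + 4)) * (ℓ ^ 2 / N ^ 2) * (R ^ (c + (b + 4)) / s) =
      Q ^ (c + (b + 4)) * 4 ^ (c + (b + 4)) * ℓ ^ 2 * R ^ b / s * R ^ c := by
    rw [pow_add R c, pow_add R b, hR4]
    field_simp
  rw [h1]
  refine mul_le_mul_of_nonneg_right ?_ (by positivity)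
  rw [le_div_iff₀ hs0]
  have h2 : ℓ ^ (b + 4) ≤ ℓ ^ 2 * (2 * s ^ 2) ^ (b + 2) := by
    have : ℓ ^ (b + 4) = ℓ ^ 2 * ℓ ^ (b + 2) := by ring
    rw [this]
    exact mul_le_mul_of_nonneg_left (pow_le_pow_left₀ hℓ0 hℓ _) (by positivity)
  have h3 : (s ^ D / 2) ^ b ≤ R ^ b := pow_le_pow_left₀ (by positivity) hRs b
  have h4 : (Q * s) ^ (b + 4) / (s ^ 2) ^ r * ℓ ^ (b + 4) * s ≤
      (Q * s) ^ (b + 4) / (s ^ 2) ^ r * (ℓ ^ 2 * (2 * s ^ 2) ^ (b + 2)) * s :=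
    mul_le_mul_of_nonneg_right (mul_le_mul_of_nonneg_left h2 (by positivity)) hs0.le
  refine h4.trans ?_
  have h5 : Q ^ (c + (b + 4)) * 4 ^ (c + (b + 4)) * ℓ ^ 2 * (s ^ D / 2) ^ b ≤
      Q ^ (c + (b + 4)) * 4 ^ (c + (b + 4)) * ℓ ^ 2 * R ^ b := mul_le_mul_of_nonneg_left h3 (by positivity)
  refine le_trans ?_ h5
  have h6 : (Q * s) ^ (b + 4) / (s ^ 2) ^ r * (ℓ ^ 2 * (2 * s ^ 2) ^ (b + 2)) * s =
      (Q ^ (b + 4) * 2 ^ (b + 2) * ℓ ^ 2) * (s ^ (3 * b + 9) / (s ^ 2) ^ r) := by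
    rw [mul_pow, mul_pow, ← pow_mul s 2 (b + 2)]
    have : s ^ (3 * b + 9) = s ^ (b + 4) * s ^ (2 * (b + 2)) * s := by
      rw [← pow_add, ← pow_succ]
      congr 1
      ring
    rw [this]
    ring
  have h7 : Q ^ (c + (b + 4)) * 4 ^ (c + (b + 4)) * ℓ ^ 2 * (s ^ D / 2) ^ b =
      (Q ^ (c + (b + 4)) * (4 ^ (c + (b + 4)) / 2 ^ b) * ℓ ^ 2) * s ^ (D * b) := by
    rw [div_pow, ← pow_mul]
    field_simp
  rw [h6, h7]
  have h8 : s ^ (3 * b + 9) / (s ^ 2) ^ r ≤ s ^ (D * b) := by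
    rw [div_le_iff₀ (by positivity), ← pow_mul, ← pow_add]
    exact pow_le_pow_right₀ hs (by omega)
  have h9 : (2 : ℝ) ^ (b + 2) ≤ 4 ^ (c + (b + 4)) / 2 ^ b := by
    rw [le_div_iff₀ (by positivity)]
    have e1 : (2 : ℝ) ^ (b + 2) * 2 ^ b = 4 ^ (b + 1) := by
      rw [show (4 : ℝ) = 2 ^ 2 by norm_num, ← pow_mul, ← pow_add]
      congr 1
      ring
    rw [e1]
    exact pow_le_pow_right₀ (by norm_num) (by omega)
  have h10 : Q ^ (b + 4) ≤ Q ^ (c + (b + 4)) := pow_le_pow_right₀ hQ (by omega)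
  refine mul_le_mul ?_ h8 (by positivity) (by positivity)
  refine mul_le_mul_of_nonneg_right ?_ (by positivity)
  exact mul_le_mul h10 h9 (by positivity) (by positivity)

end Pool.Agent.H25CC
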