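import Pool.Agent.H25CC.Loc

set_option autoImplicit false
set_option linter.unusedSectionVars false

/-! The number of the points of a cyclic cover. -/

namespace Pool.Agent.H25CC

open Finset
open Pool.Agent.Y722.HS (Mon mev)
open Q285HS (sm ev AA mem_AA Idx fam points)
open scoped LinearAlgebra.Projectivization

variable {n : ℕ} {J : Type} [Fintype J] [DecidableEq J] {d : J → ℕ} {g : J → MvPolynomial (Fin (n + 1)) ℤ} {W : Set (MvPolynomial (Fin (n + 1)) ℤ)}

lemma eval_fam (p : ℕ) [hp : Fact p.Prime] (t : Idx n d → ℤ) (P : ℙ (ZMod p) (Fin (n + 1) → ZMod p)) :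
    MvPolynomial.aeval P.rep (fam g t) = ev (d := d) g p P (fun x => (t x : ZMod p)) := by
  show _ = ∑ j, MvPolynomial.aeval P.rep (g j) * ∑ ν : Mon n (d j), ((t ⟨j, ν⟩ : ℤ) : ZMod p) * mev P.rep ν
  unfold fam
  rw [map_sum]
  refine sum_congr rfl fun j _ => ?_
  rw [map_mul, map_sum]
  congr 1
  refine sum_congr rfl fun ν _ => ?_
  rw [map_mul, map_prod]
  congr 1
  · simp
  · unfold mev
    exact prod_congr rfl fun i _ => by rw [map_pow, MvPolynomial.aeval_X]

lemma fam_zero (p : ℕ) [hp : Fact p.Prime] (t : Idx n d → ℤ) (P : ℙ (ZMod p) (Fin (n + 1) → ZMod p))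
    (h : ∀ j, MvPolynomial.aeval P.rep (g j) = 0) : MvPolynomial.aeval P.rep (fam g t) = 0 := by
  unfold fam
  rw [map_sum]
  exact sum_eq_zero fun j _ => by rw [map_mul, h j, zero_mul]

lemma cover_card (p m : ℕ) [hp : Fact p.Prime] (hm : 1 ≤ m) (t : Idx n d → ℤ) :
    (Nat.card {x : ℙ (ZMod p) (Fin (n + 1) → ZMod p) × ZMod p // (∀ G ∈ W, MvPolynomial.aeval x.1.rep G = 0) ∧
      x.2 ^ m = MvPolynomial.aeval x.1.rep (fam g t)} : ℝ) - points p W =
      ∑ P ∈ AA g W p, ((nr m p (ev (d := d) g p P (fun x => (t x : ZMod p))) : ℝ) - 1) := by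
  classical
  obtain ⟨V, hV⟩ : ∃ V : Finset (ℙ (ZMod p) (Fin (n + 1) → ZMod p)),
    V = univ.filter fun P => ∀ G ∈ W, MvPolynomial.aeval P.rep G = 0 := ⟨_, rfl⟩
  have h1 : points p W = V.card := by
    rw [hV]
    unfold points
    rw [dif_pos hp.out, Nat.card_eq_fintype_card, Fintype.card_subtype]
  have h2 : (Nat.card {x : ℙ (ZMod p) (Fin (n + 1) → ZMod p) × ZMod p // (∀ G ∈ W, MvPolynomial.aeval x.1.rep G = 0) ∧
      x.2 ^ m = MvPolynomial.aeval x.1.rep (fam g t)}) = ∑ P ∈ V, nr m p (MvPolynomial.aeval P.rep (fam g t)) := by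
    rw [Nat.card_eq_fintype_card, Fintype.card_subtype, card_filter, Fintype.sum_prod_type, hV, sum_filter]
    refine sum_congr rfl fun P _ => ?_
    by_cases hP : ∀ G ∈ W, MvPolynomial.aeval P.rep G = 0
    · rw [if_pos hP]
      unfold nr
      rw [card_filter]
      refine sum_congr rfl fun w _ => ?_
      by_cases hw : w ^ m = MvPolynomial.aeval P.rep (fam g t)
      · rw [if_pos ⟨hP, hw⟩, if_pos hw]
      · rw [if_neg (fun h => hw h.2), if_neg hw]
    · rw [if_neg hP]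
      refine sum_eq_zero fun w _ => ?_
      rw [if_neg (fun h => hP h.1)]
  have h3 : (V.card : ℝ) = ∑ P ∈ V, (1 : ℝ) := by simp
  rw [h1, h2, h3]
  push_cast
  rw [← sum_sub_distrib]
  have h4 : AA g W p ⊆ V := by
    intro P hP
    rw [hV, mem_filter]
    exact ⟨mem_univ _, ((mem_AA p).1 hP).1⟩
  rw [← sum_subset h4]
  · refine sum_congr rfl fun P _ => ?_
    rw [eval_fam]
  · intro P hP hPA
    have h5 : ∀ j, MvPolynomial.aeval P.rep (g j) = 0 := by
      intro j
      by_contra hj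
      rw [hV, mem_filter] at hP
      exact hPA ((mem_AA p).2 ⟨hP.2, j, hj⟩)
    rw [fam_zero p t P h5, nr_zero m p hm]
    simp

/-- the normalised deviation is the trace -/
lemma HC_trace (m D p : ℕ) [hp : Fact p.Prime] (hm : 2 ≤ m) (hg : 1 < Nat.gcd m (p - 1)) (t : Idx n d → ℤ) :
    ((Nat.card {x : ℙ (ZMod p) (Fin (n + 1) → ZMod p) × ZMod p // (∀ G ∈ W, MvPolynomial.aeval x.1.rep G = 0) ∧
      x.2 ^ m = MvPolynomial.aeval x.1.rep (fam g t)} : ℝ) - points p W) / (Real.sqrt ((Nat.gcd m (p - 1) : ℝ) - 1) * Real.sqrt p ^ D) =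
      HC g W m D p (fun x => (t x : ZMod p)) := by
  have hp3 : 3 ≤ p := by
    have h2 := hp.out.two_le
    rcases Nat.lt_or_ge p 3 with h | h
    · exfalso
      have : p = 2 := by omega
      subst this
      norm_num at hg
    · exact h
  have hmm : mm m p = m := by
    unfold mm
    rw [if_pos (by rw [Nat.gcd_comm]; exact hg)]
  have hmR : (m : ℝ) ≠ 0 := by
    have : (0 : ℝ) < m := by exact_mod_cast (by omega : 0 < m)
    exact this.ne'
  have hmR0 : (0 : ℝ) ≤ m := Nat.cast_nonneg m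
  rw [cover_card p m (by omega) t, HC_eq m D p hp3, hmm]
  have h1 : sm (ev (d := d) g p) (AA g W p) (fun _ => cf m p) (fun x => (t x : ZMod p)) =
      (∑ P ∈ AA g W p, ((nr m p (ev (d := d) g p P (fun x => (t x : ZMod p))) : ℝ) - 1)) / m := by
    unfold sm cf
    rw [sum_div]
  have h2 : tau m p = Real.sqrt ((Nat.gcd m (p - 1) : ℝ) - 1) / m := by
    unfold tau
    rw [hmm, Real.sqrt_div' _ (by positivity), Real.sqrt_sq hmR0, Nat.gcd_comm]
  rw [h1, h2, div_div]
  congr 1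
  rw [← mul_assoc, mul_div_cancel₀ _ hmR]

end Pool.Agent.H25CC
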