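import Pool.Agent.H41N.MD.Cmp

set_option autoImplicit false
set_option linter.unusedSectionVars false

/-! The mean of a product of functions of values any `r` of which are independent. -/

namespace Pool.Agent.H25CC

open Finset
open Q282.CL (av)
open H41N.MD (Sur)

section

variable (p : ℕ) [hp : Fact p.Prime]

/-- the Fourier transform -/
noncomputable def FT (f : ZMod p → ℝ) (c : ZMod p) : ℂ :=
  ∑ v : ZMod p, (f v : ℂ) * ZMod.stdAddChar (-(c * v))

lemma FT_inv (f : ZMod p → ℝ) (v : ZMod p) :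
    (f v : ℂ) = (1 / (p : ℂ)) * ∑ c : ZMod p, FT p f c * ZMod.stdAddChar (c * v) := by
  have hp0 : (p : ℂ) ≠ 0 := by exact_mod_cast hp.out.ne_zero
  have h1 : ∑ c : ZMod p, FT p f c * ZMod.stdAddChar (c * v) =
      ∑ u : ZMod p, (f u : ℂ) * ∑ c : ZMod p, ZMod.stdAddChar (c * (v - u)) := by
    unfold FT
    simp only [sum_mul, mul_sum]
    rw [sum_comm]
    refine sum_congr rfl fun u _ => sum_congr rfl fun c _ => ?_
    rw [mul_assoc, ← AddChar.map_add_eq_mul]
    congr 2
    ring
  rw [h1]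
  have h2 : ∀ u : ZMod p, ∑ c : ZMod p, (ZMod.stdAddChar (c * (v - u)) : ℂ) = if v - u = 0 then (p : ℂ) else 0 := by
    intro u
    have := AddChar.sum_mulShift (v - u) (ZMod.isPrimitive_stdAddChar p)
    rw [this, ZMod.card]
    split_ifs <;> simp
  simp only [h2, mul_ite, mul_zero]
  rw [sum_eq_single v]
  · rw [sub_self, if_pos rfl]
    field_simp
  · intro u _ hu
    rw [if_neg]
    exact sub_ne_zero.2 (Ne.symm hu)
  · exact fun h => absurd (mem_univ v) h

end

variable {σ K : Type} [Fintype σ] [DecidableEq σ] [AddCommGroup K] [Fintype K] {p : ℕ} [hp : Fact p.Prime]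

/-- the relations -/
def IsRel (e : σ → K →+ ZMod p) (c : σ → ZMod p) : Prop := ∀ k : K, ∑ t, c t * e t k = 0

lemma rel_zero {e : σ → K →+ ZMod p} {r : ℕ} (hr : ∀ T : Finset σ, T.card ≤ r → Sur e T) {c : σ → ZMod p}
    (hc : IsRel e c) (T : Finset σ) (hT : T.card ≤ r) (hcT : ∀ t, t ∉ T → c t = 0) : c = 0 := by
  funext t0
  by_cases h0 : t0 ∈ T
  · obtain ⟨k, hk⟩ := hr T hT (fun t => if t = t0 then 1 else 0)
    have h1 := hc k
    rw [sum_eq_single t0] at h1
    · rw [hk t0 h0, if_pos rfl, mul_one] at h1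
      exact h1
    · intro t _ ht
      by_cases htT : t ∈ T
      · rw [hk t htT, if_neg ht, mul_zero]
      · rw [hcT t htT, zero_mul]
    · exact fun h => absurd (mem_univ _) h
  · exact hcT t0 h0

open Classical in
lemma rel_card {e : σ → K →+ ZMod p} {r : ℕ} (hr : ∀ T : Finset σ, T.card ≤ r → Sur e T) (Z : Finset σ)
    (hZ : r ≤ Z.card) :
    ((univ : Finset (σ → ZMod p)).filter (fun c => IsRel e c ∧ ∀ t, t ∉ Z → c t = 0)).card ≤ p ^ (Z.card - r) := by
  obtain ⟨T, hTZ, hT⟩ := exists_subset_card_eq hZ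
  have h1 : ((univ : Finset (σ → ZMod p)).filter (fun c => IsRel e c ∧ ∀ t, t ∉ Z → c t = 0)).card ≤
      (univ : Finset (↥(Z \ T) → ZMod p)).card := by
    apply card_le_card_of_injOn (fun c => fun t : ↥(Z \ T) => c t)
    · intro c _
      exact mem_coe.2 (mem_univ _)
    · intro c hc c' hc' h
      rw [mem_coe, mem_filter] at hc hc'
      have h2 : c - c' = 0 := by
        apply rel_zero hr (T := T) _ hT.le
        · intro t ht
          by_cases htZ : t ∈ Z
          · have h3 := congrFun h ⟨t, mem_sdiff.2 ⟨htZ, ht⟩⟩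
            simp only at h3
            rw [Pi.sub_apply, h3, sub_self]
          · rw [Pi.sub_apply, hc.2.2 t htZ, hc'.2.2 t htZ, sub_self]
        · intro k
          have h3 := hc.2.1 k
          have h4 := hc'.2.1 k
          simp only [Pi.sub_apply, sub_mul, sum_sub_distrib, h3, h4, sub_self]
      exact sub_eq_zero.1 h2
  refine h1.trans (le_of_eq ?_)
  rw [card_univ, Fintype.card_fun, ZMod.card, Fintype.card_coe, card_sdiff_of_subset hTZ, hT]

/-- the sum of the character -/
lemma sum_char (e : σ → K →+ ZMod p) (c : σ → ZMod p) [Decidable (IsRel e c)] :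
    ∑ k : K, (ZMod.stdAddChar (∑ t, c t * e t k) : ℂ) = if IsRel e c then (Fintype.card K : ℂ) else 0 := by
  classical
  obtain ⟨L, hL⟩ : ∃ L : K →+ ZMod p, ∀ k, L k = ∑ t, c t * e t k := by
    refine ⟨∑ t, (AddMonoidHom.mulLeft (c t)).comp (e t), fun k => ?_⟩
    rw [AddMonoidHom.finsetSum_apply]
    rfl
  have h1 : ∑ k : K, (ZMod.stdAddChar (∑ t, c t * e t k) : ℂ) =
      ∑ k : K, ((ZMod.stdAddChar (N := p)).compAddMonoidHom L) k := by
    refine sum_congr rfl fun k _ => ?_
    rw [← hL k]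
    rfl
  rw [h1, AddChar.sum_eq_ite]
  have h2 : ((ZMod.stdAddChar (N := p)).compAddMonoidHom L = 0) ↔ IsRel e c := by
    constructor
    · intro h k
      have h3 := DFunLike.congr_fun h k
      have h4 : (ZMod.stdAddChar (N := p)) (L k) = (ZMod.stdAddChar (N := p)) 0 := by
        rw [AddChar.map_zero_eq_one]
        exact h3
      have h5 := ZMod.injective_stdAddChar h4
      rw [← hL k]
      exact h5
    · intro h
      ext k
      show (ZMod.stdAddChar (N := p)) (L k) = 1
      rw [hL k, h k, AddChar.map_zero_eq_one]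
  by_cases h3 : IsRel e c
  · rw [if_pos (h2.2 h3), if_pos h3]
  · rw [if_neg (fun h => h3 (h2.1 h)), if_neg h3]

lemma char_sum {τ : Type} [DecidableEq τ] (s : Finset τ) (f : τ → ZMod p) :
    (ZMod.stdAddChar (∑ t ∈ s, f t) : ℂ) = ∏ t ∈ s, (ZMod.stdAddChar (f t) : ℂ) := by
  induction s using Finset.induction_on with
  | empty => simp
  | insert a s ha ih => rw [sum_insert ha, prod_insert ha, AddChar.map_add_eq_mul, ih]

open Classical in
lemma av_prod_FT (e : σ → K →+ ZMod p) (f : σ → ZMod p → ℝ) :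
    ((av (fun k => ∏ t, f t (e t k)) : ℝ) : ℂ) =
      (1 / (p : ℂ) ^ Fintype.card σ) * ∑ c ∈ (univ : Finset (σ → ZMod p)).filter (IsRel e), ∏ t, FT p (f t) (c t) := by
  have hK0 : (Fintype.card K : ℂ) ≠ 0 := by
    have : Nonempty K := ⟨0⟩
    exact_mod_cast Fintype.card_ne_zero
  have h1 : ∀ k : K, ((∏ t, f t (e t k) : ℝ) : ℂ) = (1 / (p : ℂ) ^ Fintype.card σ) *
      ∑ c : σ → ZMod p, (∏ t, FT p (f t) (c t)) * ZMod.stdAddChar (∑ t, c t * e t k) := by
    intro k
    push_cast
    rw [prod_congr rfl fun t _ => FT_inv p (f t) (e t k), prod_mul_distrib, prod_const, card_univ, div_pow, one_pow]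
    congr 1
    rw [prod_univ_sum, Fintype.piFinset_univ]
    refine sum_congr rfl fun c _ => ?_
    rw [prod_mul_distrib]
    congr 1
    exact (char_sum univ _).symm
  unfold av
  push_cast
  have h2 : ∑ k : K, ∏ t, ((f t (e t k) : ℝ) : ℂ) = (1 / (p : ℂ) ^ Fintype.card σ) *
      ((Fintype.card K : ℂ) * ∑ c ∈ (univ : Finset (σ → ZMod p)).filter (IsRel e), ∏ t, FT p (f t) (c t)) := by
    have h3 : ∀ k : K, ∏ t, ((f t (e t k) : ℝ) : ℂ) = (1 / (p : ℂ) ^ Fintype.card σ) *
      ∑ c : σ → ZMod p, (∏ t, FT p (f t) (c t)) * ZMod.stdAddChar (∑ t, c t * e t k) := by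
      intro k
      rw [← h1 k]; push_cast; rfl
    rw [sum_congr rfl fun k _ => h3 k, ← mul_sum]
    congr 1
    rw [sum_comm]
    simp only [← mul_sum, sum_char]
    rw [sum_filter, mul_sum]
    refine sum_congr rfl fun c _ => ?_
    split_ifs
    · ring
    · ring
  rw [h2]
  field_simp

/-- **the comparison** -/
theorem four (e : σ → K →+ ZMod p) (r : ℕ) (hr : ∀ T : Finset σ, T.card ≤ r → Sur e T) (f : σ → ZMod p → ℝ) (B : ℝ) (hB : 1 ≤ B)
    (h0 : ∀ t v, |f t v| ≤ 1) (h1 : ∀ t c, c ≠ 0 → ‖FT p (f t) c‖ ≤ B * Real.sqrt p) :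
    |av (fun k => ∏ t, f t (e t k)) - ∏ t, av (f t)| ≤
      (2 * B) ^ Fintype.card σ * Real.sqrt p ^ Fintype.card σ / (p : ℝ) ^ r := by
  classical
  obtain ⟨s, hs⟩ : ∃ s, s = Fintype.card σ := ⟨_, rfl⟩
  have hp1 : (1 : ℝ) ≤ p := by exact_mod_cast hp.out.one_lt.le
  have hp0 : (0 : ℝ) < p := by linarith
  have hpC : (p : ℂ) ≠ 0 := by exact_mod_cast hp.out.ne_zero
  have hsq : (1 : ℝ) ≤ Real.sqrt p := Real.one_le_sqrt.2 hp1
  have hz : (0 : σ → ZMod p) ∈ (univ : Finset (σ → ZMod p)).filter (IsRel e) := by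
    rw [mem_filter]
    exact ⟨mem_univ _, fun k => by simp⟩
  have e1 := av_prod_FT e f
  rw [← add_sum_erase _ _ hz, mul_add] at e1
  have e2 : (1 / (p : ℂ) ^ Fintype.card σ) * ∏ t, FT p (f t) ((0 : σ → ZMod p) t) = ((∏ t, av (f t) : ℝ) : ℂ) := by
    push_cast
    rw [← one_pow (Fintype.card σ), ← div_pow, ← card_univ, ← prod_const, ← prod_mul_distrib]
    refine prod_congr rfl fun t _ => ?_
    unfold FT av
    simp only [Pi.zero_apply, zero_mul, neg_zero, AddChar.map_zero_eq_one, mul_one]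
    rw [ZMod.card]
    push_cast
    ring
  rw [e2] at e1
  have e3 : ((av (fun k => ∏ t, f t (e t k)) - ∏ t, av (f t) : ℝ) : ℂ) = (1 / (p : ℂ) ^ Fintype.card σ) *
      ∑ c ∈ ((univ : Finset (σ → ZMod p)).filter (IsRel e)).erase 0, ∏ t, FT p (f t) (c t) := by
    rw [Complex.ofReal_sub, e1]; ring
  have e4 : |av (fun k => ∏ t, f t (e t k)) - ∏ t, av (f t)| =
      (1 / (p : ℝ) ^ s) * ‖∑ c ∈ ((univ : Finset (σ → ZMod p)).filter (IsRel e)).erase 0, ∏ t, FT p (f t) (c t)‖ := by
    have h2 := congrArg norm e3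
    rw [Complex.norm_real, Real.norm_eq_abs, norm_mul] at h2
    rw [h2, hs]
    congr 1
    rw [norm_div, norm_one, norm_pow, Complex.norm_natCast]
  rw [e4, ← hs]
  -- the weights
  obtain ⟨sp, hsp⟩ : ∃ sp : (σ → ZMod p) → Finset σ, ∀ c, sp c = univ.filter (fun t => c t ≠ 0) := ⟨_, fun _ => rfl⟩
  have hw : ∀ c : σ → ZMod p, ‖∏ t, FT p (f t) (c t)‖ ≤ (B * Real.sqrt p) ^ (sp c).card * (p : ℝ) ^ (s - (sp c).card) := by
    intro c
    rw [norm_prod, ← prod_filter_mul_prod_filter_not univ (fun t => c t ≠ 0)]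
    apply mul_le_mul
    · rw [hsp, ← prod_const]
      refine prod_le_prod (fun t _ => norm_nonneg _) fun t ht => ?_
      exact h1 t _ (mem_filter.1 ht).2
    · have hc : (univ.filter (fun t => ¬ c t ≠ 0)).card = s - (sp c).card := by
        have h3 := card_filter_add_card_filter_not (s := (univ : Finset σ)) (fun t => c t ≠ 0)
        rw [card_univ, ← hs] at h3
        rw [hsp]
        omega
      rw [← hc, ← prod_const]
      refine prod_le_prod (fun t _ => norm_nonneg _) fun t ht => ?_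
      have h3 : c t = 0 := by
        have := (mem_filter.1 ht).2
        push Not at this
        exact this
      rw [h3]
      unfold FT
      refine (norm_sum_le _ _).trans ?_
      have h4 : ∀ v ∈ (univ : Finset (ZMod p)), ‖(f t v : ℂ) * ZMod.stdAddChar (-((0 : ZMod p) * v))‖ ≤ 1 := by
        intro v _
        rw [norm_mul, AddChar.norm_apply, mul_one, Complex.norm_real, Real.norm_eq_abs]
        exact h0 t v
      refine (sum_le_sum h4).trans ?_
      rw [sum_const, card_univ, ZMod.card, nsmul_eq_mul, mul_one]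
    · exact prod_nonneg fun t _ => norm_nonneg _
    · positivity
  have hspc : ∀ c ∈ ((univ : Finset (σ → ZMod p)).filter (IsRel e)).erase 0, r < (sp c).card := by
    intro c hc
    rw [mem_erase, mem_filter] at hc
    by_contra hcon
    rw [not_lt] at hcon
    apply hc.1
    refine rel_zero hr hc.2.2 (sp c) hcon fun t ht => ?_
    rw [hsp, mem_filter] at ht
    by_contra h3
    exact ht ⟨mem_univ _, h3⟩
  have hZ : ∀ Z : Finset σ, ∑ c ∈ (((univ : Finset (σ → ZMod p)).filter (IsRel e)).erase 0).filter (fun c => sp c = Z),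
      ‖∏ t, FT p (f t) (c t)‖ ≤ B ^ s * Real.sqrt p ^ s * (p : ℝ) ^ s / (p : ℝ) ^ r := by
    intro Z
    have hZs : Z.card ≤ s := by rw [hs]; exact card_le_univ Z
    rcases le_or_gt Z.card r with hle | hgt
    · rw [sum_eq_zero]
      · positivity
      · intro c hc
        exfalso
        rw [mem_filter] at hc
        have h3 := hspc c hc.1
        rw [hc.2] at h3
        omega
    · have h3 : ∀ c ∈ (((univ : Finset (σ → ZMod p)).filter (IsRel e)).erase 0).filter (fun c => sp c = Z),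
          ‖∏ t, FT p (f t) (c t)‖ ≤ (B * Real.sqrt p) ^ Z.card * (p : ℝ) ^ (s - Z.card) := by
        intro c hc
        rw [mem_filter] at hc
        have := hw c
        rwa [hc.2] at this
      refine (sum_le_sum h3).trans ?_
      rw [sum_const, nsmul_eq_mul]
      have h4 : ((((univ : Finset (σ → ZMod p)).filter (IsRel e)).erase 0).filter (fun c => sp c = Z)).card ≤
          p ^ (Z.card - r) := by
        refine (card_le_card ?_).trans (rel_card hr Z hgt.le)
        intro c hc
        rw [mem_filter, mem_erase, mem_filter] at hc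
        rw [mem_filter]
        refine ⟨mem_univ _, hc.1.2.2, fun t ht => ?_⟩
        rw [← hc.2, hsp, mem_filter] at ht
        by_contra h5
        exact ht ⟨mem_univ _, h5⟩
      have h5 : ((((univ : Finset (σ → ZMod p)).filter (IsRel e)).erase 0).filter (fun c => sp c = Z)).card ≤
          ((p : ℝ) ^ (Z.card - r)) := by exact_mod_cast h4
      have h6 : (B * Real.sqrt p) ^ Z.card ≤ B ^ s * Real.sqrt p ^ s := by
        rw [← mul_pow]
        exact pow_le_pow_right₀ (by nlinarith) hZs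
      calc _ ≤ (p : ℝ) ^ (Z.card - r) * ((B * Real.sqrt p) ^ Z.card * (p : ℝ) ^ (s - Z.card)) :=
            mul_le_mul_of_nonneg_right h5 (by positivity)
        _ = (B * Real.sqrt p) ^ Z.card * ((p : ℝ) ^ (Z.card - r) * (p : ℝ) ^ (s - Z.card)) := by ring
        _ = (B * Real.sqrt p) ^ Z.card * (p : ℝ) ^ (s - r) := by
            rw [← pow_add]; congr 2; omega
        _ ≤ (B ^ s * Real.sqrt p ^ s) * (p : ℝ) ^ (s - r) := mul_le_mul_of_nonneg_right h6 (by positivity)
        _ = _ := by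
            have h7 : (p : ℝ) ^ s = (p : ℝ) ^ (s - r) * (p : ℝ) ^ r := by
              rw [← pow_add]; congr 1; omega
            rw [h7]
            field_simp
  have hsum : ‖∑ c ∈ ((univ : Finset (σ → ZMod p)).filter (IsRel e)).erase 0, ∏ t, FT p (f t) (c t)‖ ≤
      2 ^ s * (B ^ s * Real.sqrt p ^ s * (p : ℝ) ^ s / (p : ℝ) ^ r) := by
    refine (norm_sum_le _ _).trans ?_
    rw [← sum_fiberwise (((univ : Finset (σ → ZMod p)).filter (IsRel e)).erase 0) sp]
    refine (sum_le_sum fun Z _ => hZ Z).trans ?_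
    rw [sum_const, card_univ, Fintype.card_finset, ← hs, nsmul_eq_mul]
    push_cast
    exact le_rfl
  calc (1 / (p : ℝ) ^ s) * ‖∑ c ∈ ((univ : Finset (σ → ZMod p)).filter (IsRel e)).erase 0, ∏ t, FT p (f t) (c t)‖
      ≤ (1 / (p : ℝ) ^ s) * (2 ^ s * (B ^ s * Real.sqrt p ^ s * (p : ℝ) ^ s / (p : ℝ) ^ r)) :=
        mul_le_mul_of_nonneg_left hsum (by positivity)
    _ = _ := by
        rw [mul_pow]
        field_simp

end Pool.Agent.H25CC
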