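import Pool.Agent.H25CC.Cmp
import Pool.Agent.H41N.MD.Loc

set_option autoImplicit false
set_option linter.unusedSectionVars false

/-! The moments of the number of the points of a random cyclic cover over a finite field. -/

namespace Pool.Agent.H25CC

open Finset
open Q282.CL
open Q282MM (gm)
open Q285HS (Sep sm ev AA Idx mom_near Loc1 Sz gm_zero gm_odd pow_sub_one_le card_AA points NearN card_proj)
open H41N.MD (Sur fe LL LL_card LL_sum qs sur_fe)
open scoped LinearAlgebra.Projectivization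

variable {n : ℕ} {J : Type} [Fintype J] [DecidableEq J] {d : J → ℕ} {g : J → MvPolynomial (Fin (n + 1)) ℤ} {W : Set (MvPolynomial (Fin (n + 1)) ℤ)}

open Classical in
/-- the difference of the moments in the two models -/
lemma diff_four {p : ℕ} [hp : Fact p.Prime] {D d₀ : ℕ} (hd₀ : 3 ≤ d₀) (hd : ∀ j, d₀ ≤ d j) (ψ : ZMod p → ℝ) (hψ : ∀ z, |ψ z| ≤ 1)
    (B : ℝ) (hB : 1 ≤ B) (hF : ∀ (q : ℕ) c, c ≠ 0 → ‖FT p (fun z => ψ z ^ q) c‖ ≤ B * Real.sqrt p) (R E : ℝ)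
    (hN0 : 0 < ((AA g W p).card : ℝ)) (hR2 : R ^ 2 = ((AA g W p).card : ℝ)) (hRp : Real.sqrt p ^ D / 2 ≤ R) (hE : 0 ≤ E) (k : ℕ)
    (hk : k ≤ 2 * d₀ + 1) (hnum : ∀ m, d₀ + 1 < m → m ≤ k → 3 * m + 4 * D ≤ D * m + 2 * (d₀ + 1) + 3)
    (hV : ∀ A ⊆ AA g W p, ∀ j ≤ k, |av (fun c : ℙ (ZMod p) (Fin (n + 1) → ZMod p) → ZMod p => sm (fe _ (ZMod p)) A (fun _ => ψ) c ^ j)| ≤ E * R ^ j) :
    |av (fun c => sm (ev (d := d) g p) (AA g W p) (fun _ => ψ) c ^ k) -
      av (fun c : ℙ (ZMod p) (Fin (n + 1) → ZMod p) → ZMod p => sm (fe _ (ZMod p)) (AA g W p) (fun _ => ψ) c ^ k)| ≤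
      (2 * B) ^ k * 8 ^ k * 2 * E * (R ^ k / Real.sqrt p) := by
  have hp1 : (1 : ℝ) ≤ p := by exact_mod_cast hp.out.one_lt.le
  have hp0 : (0 : ℝ) < p := by linarith
  have hs1 : (1 : ℝ) ≤ Real.sqrt p := Real.one_le_sqrt.2 hp1
  have hs0 : (0 : ℝ) < Real.sqrt p := by linarith
  have hss : Real.sqrt p ^ 2 = p := Real.sq_sqrt hp0.le
  have hR0 : 0 < R := by
    have : 0 < Real.sqrt p ^ D := pow_pos hs0 D
    linarith
  have hq := qs (g := g) (W := W) (p := p) (d := d) (by omega) hd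
  have h1 := cmp_four hq (by omega) (fun _ => ψ) (fun _ z => hψ z) B hB (fun _ q c hc => hF q c hc) k hk
  refine h1.trans ?_
  obtain ⟨N, hN⟩ : ∃ N : ℝ, N = ((AA g W p).card : ℝ) := ⟨_, rfl⟩
  rw [← hN] at hR2 hN0
  obtain ⟨T, hT⟩ : ∃ T : ℝ, T = (2 * B) ^ k * 4 ^ k * (R ^ k / Real.sqrt p) / N ^ 2 * E := ⟨_, rfl⟩
  have hT0 : 0 ≤ T := by
    rw [hT]
    positivity
  have h2 : ∀ L ∈ LL g W p, (∑ m ∈ range (k + 1), if d₀ + 1 < m then (k.choose m : ℝ) * (((2 * B * Real.sqrt p) ^ m / (p : ℝ) ^ (d₀ + 1) *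
      (L.card : ℝ) ^ m) *
      |av (fun c : ℙ (ZMod p) (Fin (n + 1) → ZMod p) → ZMod p => sm (fe _ (ZMod p)) (AA g W p \ L) (fun _ => ψ) c ^ (k - m))|) else 0) ≤
      2 ^ k * ((L.card : ℝ) ^ 2 * T) := by
    intro L hL
    have h3 : ∀ m ∈ range (k + 1), (if d₀ + 1 < m then (k.choose m : ℝ) * (((2 * B * Real.sqrt p) ^ m / (p : ℝ) ^ (d₀ + 1) *
      (L.card : ℝ) ^ m) *
      |av (fun c : ℙ (ZMod p) (Fin (n + 1) → ZMod p) → ZMod p => sm (fe _ (ZMod p)) (AA g W p \ L) (fun _ => ψ) c ^ (k - m))|) else 0) ≤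
        (k.choose m : ℝ) * ((L.card : ℝ) ^ 2 * T) := by
      intro m hm
      rw [mem_range] at hm
      split_ifs with hrm
      · refine mul_le_mul_of_nonneg_left ?_ (Nat.cast_nonneg _)
        have h4 := hV (AA g W p \ L) sdiff_subset (k - m) (by omega)
        have hLp : (L.card : ℝ) ≤ 2 * Real.sqrt p ^ 2 := by
          rw [hss]
          exact_mod_cast LL_card hL
        have h5 := num_four (Real.sqrt p) N L.card R (2 * B) (d₀ + 1) k m D hs1 hN0 hR2 hRp (Nat.cast_nonneg _) hLp (by linarith) (by omega)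
          (by omega) (hnum m hrm (by omega))
        rw [hss] at h5
        refine (mul_le_mul_of_nonneg_left h4 (by positivity)).trans ?_
        have e1 : (2 * B * Real.sqrt p) ^ m / (p : ℝ) ^ (d₀ + 1) * (L.card : ℝ) ^ m * (E * R ^ (k - m)) =
            ((2 * B * Real.sqrt p) ^ m / (p : ℝ) ^ (d₀ + 1) * (L.card : ℝ) ^ m * R ^ (k - m)) * E := by ring
        rw [e1]
        refine (mul_le_mul_of_nonneg_right h5 hE).trans (le_of_eq ?_)
        rw [hT]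
        ring
      · positivity
    refine (sum_le_sum h3).trans ?_
    rw [← sum_mul]
    refine mul_le_mul_of_nonneg_right ?_ (by positivity)
    have h6 := Nat.sum_range_choose k
    exact_mod_cast h6.le
  refine (sum_le_sum h2).trans ?_
  rw [← mul_sum, ← sum_mul]
  have h3 : ∑ L ∈ LL g W p, (L.card : ℝ) ^ 2 ≤ 2 * N ^ 2 := by
    rw [hN]
    exact_mod_cast LL_sum (g := g) (W := W) (p := p)
  have h4 : 2 ^ k * ((∑ L ∈ LL g W p, (L.card : ℝ) ^ 2) * T) ≤ 2 ^ k * ((2 * N ^ 2) * T) :=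
    mul_le_mul_of_nonneg_left (mul_le_mul_of_nonneg_right h3 hT0) (by positivity)
  refine h4.trans (le_of_eq ?_)
  rw [hT]
  have h5 : (8 : ℝ) ^ k = 2 ^ k * 4 ^ k := by
    rw [← mul_pow]
    norm_num
  rw [h5]
  field_simp

/-- the exponent used at `p` -/
def mm (m p : ℕ) : ℕ := if 1 < Nat.gcd (p - 1) m then m else 2

lemma mm_two {m p : ℕ} (hm : 2 ≤ m) : 2 ≤ mm m p := by
  unfold mm
  split_ifs
  · exact hm
  · exact le_rfl

lemma mm_le {m p : ℕ} (hm : 2 ≤ m) : mm m p ≤ m := by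
  unfold mm
  split_ifs
  · exact le_rfl
  · exact hm

lemma gcd_mm {m p : ℕ} (hp : p.Prime) (hp3 : 3 ≤ p) : 2 ≤ Nat.gcd (p - 1) (mm m p) := by
  unfold mm
  split_ifs with h
  · exact h
  · have h1 : Even (p - 1) := hp.even_sub_one (by omega)
    have h2 : 2 ∣ Nat.gcd (p - 1) 2 := Nat.dvd_gcd h1.two_dvd (dvd_refl 2)
    exact Nat.le_of_dvd (Nat.gcd_pos_of_pos_right _ (by norm_num)) h2

/-- the standard deviation of the local function, up to a factor close to `1` -/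
noncomputable def tau (m p : ℕ) : ℝ := Real.sqrt (((Nat.gcd (p - 1) (mm m p) : ℝ) - 1) / (mm m p : ℝ) ^ 2)

lemma tau_low {m p : ℕ} (hm : 2 ≤ m) (hp : p.Prime) (hp3 : 3 ≤ p) : 1 / (m : ℝ) ≤ tau m p := by
  have h1 : (2 : ℝ) ≤ Nat.gcd (p - 1) (mm m p) := by exact_mod_cast gcd_mm (m := m) hp hp3
  have h2 : (0 : ℝ) < mm m p := by
    have := mm_two (p := p) hm
    exact_mod_cast (by omega : 0 < mm m p)
  have h3 : (mm m p : ℝ) ≤ m := by exact_mod_cast mm_le (p := p) hm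
  unfold tau
  refine Real.le_sqrt_of_sq_le ?_
  rw [div_pow, one_pow]
  exact div_le_div₀ (by linarith) (by linarith) (by positivity) (pow_le_pow_left₀ h2.le h3 2)

lemma tau_pos {m p : ℕ} (hm : 2 ≤ m) (hp : p.Prime) (hp3 : 3 ≤ p) : 0 < tau m p := by
  have h1 := tau_low hm hp hp3
  have h2 : (0 : ℝ) < m := by exact_mod_cast (by omega : 0 < m)
  have h3 : 0 < 1 / (m : ℝ) := by positivity
  linarith

lemma tau_sq {m p : ℕ} (hp : p.Prime) (hp3 : 3 ≤ p) : tau m p ^ 2 = ((Nat.gcd (p - 1) (mm m p) : ℝ) - 1) / (mm m p : ℝ) ^ 2 := by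
  have h1 : (2 : ℝ) ≤ Nat.gcd (p - 1) (mm m p) := by exact_mod_cast gcd_mm (m := m) hp hp3
  unfold tau
  rw [Real.sq_sqrt]
  exact div_nonneg (by linarith) (by positivity)

variable (g W) in
open Classical in
/-- the normalised deviation -/
noncomputable def HC (m D p : ℕ) (c : Idx n d → ZMod p) : ℝ :=
  if h : p.Prime ∧ 3 ≤ p then
    haveI : Fact p.Prime := ⟨h.1⟩
    sm (ev (d := d) g p) (AA g W p) (fun _ => cf (mm m p) p) c / (tau m p * Real.sqrt p ^ D)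
  else 0

lemma HC_eq (m D p : ℕ) [hp : Fact p.Prime] (hp3 : 3 ≤ p) (c : Idx n d → ZMod p) :
    HC g W m D p c = sm (ev (d := d) g p) (AA g W p) (fun _ => cf (mm m p) p) c / (tau m p * Real.sqrt p ^ D) := by
  unfold HC
  rw [dif_pos ⟨hp.out, hp3⟩]

lemma HC_abs {m : ℕ} (hm : 2 ≤ m) (D p : ℕ) (hpr : p.Prime) (c : Idx n d → ZMod p) : |HC g W m D p c| ≤ m * (p : ℝ) ^ (n + 1) := by
  have : Fact p.Prime := ⟨hpr⟩
  have hp1 : (1 : ℝ) ≤ p := by exact_mod_cast hpr.one_lt.le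
  have hmR : (0 : ℝ) < m := by exact_mod_cast (by omega : 0 < m)
  by_cases hp3 : 3 ≤ p
  · have hs : 1 ≤ Real.sqrt p ^ D := one_le_pow₀ (Real.one_le_sqrt.2 hp1)
    have ht := tau_pos hm hpr hp3
    have ht1 := tau_low hm hpr hp3
    have h0 : 0 < tau m p * Real.sqrt p ^ D := mul_pos ht (by linarith)
    rw [HC_eq m D p hp3, abs_div, abs_of_pos h0, div_le_iff₀ h0]
    have h1 : |sm (ev (d := d) g p) (AA g W p) (fun _ => cf (mm m p) p) c| ≤ (p : ℝ) ^ (n + 1) := by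
      unfold sm
      refine (abs_sum_le_sum_abs _ _).trans ((sum_le_sum fun t _ => cf_abs (mm m p) p (by have := mm_two (p := p) hm; omega) _).trans ?_)
      rw [sum_const, nsmul_eq_mul, mul_one]
      exact card_proj p _
    have h2 : 0 ≤ (p : ℝ) ^ (n + 1) := by positivity
    have h3 : 1 ≤ m * tau m p := by
      rw [div_le_iff₀ hmR] at ht1
      linarith
    have h4 : 1 ≤ m * (tau m p * Real.sqrt p ^ D) := by
      have e : (m : ℝ) * (tau m p * Real.sqrt p ^ D) = (m * tau m p) * Real.sqrt p ^ D := by ring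
      rw [e]
      nlinarith
    calc |sm (ev (d := d) g p) (AA g W p) (fun _ => cf (mm m p) p) c| ≤ (p : ℝ) ^ (n + 1) * 1 := by rw [mul_one]; exact h1
      _ ≤ (p : ℝ) ^ (n + 1) * (m * (tau m p * Real.sqrt p ^ D)) := mul_le_mul_of_nonneg_left h4 h2
      _ = _ := by ring
  · unfold HC
    rw [dif_neg (fun h => hp3 h.2), abs_zero]
    positivity

open Classical in
/-- **the local moments are close to those of the normal law** -/
theorem loc_cov {D p₀ : ℕ} {C₀ : ℝ} (m : ℕ) (hm : 2 ≤ m) (hD : 2 ≤ D) (hsz : Sz g W D p₀ C₀) (k d₀ : ℕ) (hd₀ : 3 ≤ d₀) (hd : ∀ j, d₀ ≤ d j)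
    (hk : k ≤ 2 * d₀ + 1) (hnum : ∀ i, d₀ + 1 < i → i ≤ k → 3 * i + 4 * D ≤ D * i + 2 * (d₀ + 1) + 3) :
    ∃ (K : ℝ) (p₁ : ℕ), (m : ℝ) ≤ K ∧ ∀ p : ℕ, p.Prime → p₁ ≤ p → ∀ j ≤ k,
      |mn (fun p c => HC (d := d) g W m D p c ^ j) p - (gm j : ℝ)| ≤ K / Real.sqrt p := by
  obtain ⟨C, hC, hmom⟩ := mom_near k
  obtain ⟨G, hG⟩ : ∃ G : ℝ, G = ∑ j ∈ range (k + 1), (gm j : ℝ) := ⟨_, rfl⟩
  have hGj : ∀ j ≤ k, (gm j : ℝ) ≤ G := fun j hj => by
    rw [hG]
    exact single_le_sum (f := fun j => (gm j : ℝ)) (fun i _ => Nat.cast_nonneg _) (mem_range.2 (by omega))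
  have hG0 : 0 ≤ G := (Nat.cast_nonneg _).trans (hGj 0 (by omega))
  have hmR : (2 : ℝ) ≤ m := by exact_mod_cast hm
  obtain ⟨C₁, hC₁⟩ : ∃ C₁ : ℝ, C₁ = |C₀| + 1 := ⟨_, rfl⟩
  have hC₁0 : 1 ≤ C₁ := by
    rw [hC₁]
    linarith [abs_nonneg C₀]
  have hCC : C₀ ≤ C₁ := by
    rw [hC₁]
    linarith [le_abs_self C₀]
  obtain ⟨C₂, hC₂⟩ : ∃ C₂ : ℝ, C₂ = (2 * (2 * m + 4)) ^ k * 8 ^ k * 2 * (G + C) := ⟨_, rfl⟩
  have hC₂0 : 0 ≤ C₂ := by
    rw [hC₂]
    positivity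
  obtain ⟨k₀, hk₀⟩ := exists_nat_ge ((4 * C₁) ^ 2)
  refine ⟨(C + C₂) * (2 * m) ^ k + G * (k * 2 ^ k * (2 * C₁ + 2)) + m, max p₀ (k₀ + 4), ?_, ?_⟩
  · have h1 : (0 : ℝ) ≤ (2 * m) ^ k := by positivity
    have h2 : 0 ≤ G * (k * 2 ^ k * (2 * C₁ + 2)) := by positivity
    have h3 : 0 ≤ (C + C₂) * (2 * m) ^ k := mul_nonneg (by linarith) h1
    linarith
  intro p hpr hp j hj
  have : Fact p.Prime := ⟨hpr⟩
  have hpp₀ : p₀ ≤ p := (le_max_left _ _).trans hp
  have hpk : k₀ + 4 ≤ p := (le_max_right _ _).trans hp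
  have hp3 : 3 ≤ p := by omega
  have hp4 : (4 : ℝ) ≤ p := by exact_mod_cast (by omega : 4 ≤ p)
  have hp0 : (0 : ℝ) < p := by linarith
  have hs0 : 0 < Real.sqrt p := Real.sqrt_pos.2 hp0
  have hss : Real.sqrt p * Real.sqrt p = p := Real.mul_self_sqrt hp0.le
  have hs4 : 4 * C₁ ≤ Real.sqrt p := by
    refine Real.le_sqrt_of_sq_le (hk₀.trans ?_)
    exact_mod_cast (by omega : k₀ ≤ p)
  have hs1 : 1 ≤ Real.sqrt p := by linarith
  -- the exponent
  obtain ⟨μ, hμ⟩ : ∃ μ, μ = mm m p := ⟨_, rfl⟩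
  have hμ2 : 2 ≤ μ := by rw [hμ]; exact mm_two hm
  have hμm : μ ≤ m := by rw [hμ]; exact mm_le hm
  have hμmR : (μ : ℝ) ≤ m := by exact_mod_cast hμm
  obtain ⟨τ, hτ⟩ : ∃ τ, τ = tau m p := ⟨_, rfl⟩
  have hτ0 : 0 < τ := by rw [hτ]; exact tau_pos hm hpr hp3
  have hτl : 1 / (m : ℝ) ≤ τ := by rw [hτ]; exact tau_low hm hpr hp3
  have hτm : 1 ≤ m * τ := by
    rw [div_le_iff₀ (by linarith)] at hτl
    linarith
  -- the number of the points
  obtain ⟨N, hN⟩ : ∃ N : ℝ, N = ((AA g W p).card : ℝ) := ⟨_, rfl⟩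
  have hpD : 0 < (p : ℝ) ^ D := by positivity
  have hN1 : |N / (p : ℝ) ^ D - 1| ≤ 2 * C₁ / Real.sqrt p := by
    have h1 := hsz.amb p hpr hpp₀
    have h2 := hsz.bas p hpr hpp₀
    have h3 := card_AA g W p
    rw [← hN] at h3
    have h4 : (0 : ℝ) ≤ points p (W ∪ Set.range g) := Nat.cast_nonneg _
    have h5 : C₀ * ((p : ℝ) ^ D / Real.sqrt p) ≤ C₁ * ((p : ℝ) ^ D / Real.sqrt p) := mul_le_mul_of_nonneg_right hCC (by positivity)
    have h6 : N / (p : ℝ) ^ D - 1 = (N - (p : ℝ) ^ D) / (p : ℝ) ^ D := by field_simp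
    rw [h6, abs_div, abs_of_pos hpD, div_le_iff₀ hpD]
    have h7 : 2 * C₁ / Real.sqrt p * (p : ℝ) ^ D = 2 * (C₁ * ((p : ℝ) ^ D / Real.sqrt p)) := by ring
    have h8 : 0 ≤ C₁ * ((p : ℝ) ^ D / Real.sqrt p) := by positivity
    rw [h7, abs_le]
    rw [abs_le] at h1
    constructor <;> linarith [h1.1, h1.2]
  have hN2 : |N / (p : ℝ) ^ D - 1| ≤ 1 / 2 := by
    refine hN1.trans ?_
    rw [div_le_iff₀ hs0]
    linarith
  have hN3 : (p : ℝ) ^ D / 2 ≤ N ∧ N ≤ 2 * (p : ℝ) ^ D := by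
    rw [abs_le] at hN2
    have h1 : 1 / 2 ≤ N / (p : ℝ) ^ D := by linarith [hN2.1]
    have h2 : N / (p : ℝ) ^ D ≤ 2 := by linarith [hN2.2]
    rw [le_div_iff₀ hpD] at h1
    rw [div_le_iff₀ hpD] at h2
    constructor <;> linarith
  obtain ⟨s, hs⟩ : ∃ s : ℝ, s = Real.sqrt p ^ D := ⟨_, rfl⟩
  have hs_pos : 0 < s := by
    rw [hs]
    positivity
  have hs2 : s ^ 2 = (p : ℝ) ^ D := by
    rw [hs, ← pow_mul, mul_comm, pow_mul, pow_two, hss]
  have hsp : Real.sqrt p ≤ s := by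
    rw [hs]
    exact le_self_pow₀ hs1 (by omega)
  have hpD4 : 4 ≤ (p : ℝ) ^ D := hp4.trans (le_self_pow₀ (by linarith) (by omega))
  obtain ⟨r, hr⟩ : ∃ r : ℝ, r = Real.sqrt N := ⟨_, rfl⟩
  have hN1' : 1 ≤ N := by linarith [hN3.1]
  have hN0 : 0 < N := by linarith
  have hr1 : 1 ≤ r := by
    rw [hr]
    exact Real.one_le_sqrt.2 hN1'
  have hr2 : r ^ 2 = N := by
    rw [hr, Real.sq_sqrt hN0.le]
  have hrs : r ≤ 2 * s := by
    refine abs_le_of_sq_le_sq' ?_ (by positivity) |>.2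
    rw [mul_pow, hs2, hr2]
    linarith [hN3.2]
  have hrl : s / 2 ≤ r := by
    refine abs_le_of_sq_le_sq' ?_ (by linarith) |>.2
    rw [div_pow, hs2, hr2]
    linarith [hN3.1]
  obtain ⟨σ, hσ⟩ : ∃ σ : ℝ, σ = τ ^ 2 * (1 - 1 / p) := ⟨_, rfl⟩
  have hp1 : 1 / (p : ℝ) ≤ 1 := by
    rw [div_le_one hp0]
    linarith
  have hp10 : 0 < 1 / (p : ℝ) := by positivity
  have hσ0 : 0 ≤ σ := by
    rw [hσ]
    exact mul_nonneg (by positivity) (by linarith)
  have hσa : av (fun v => cf μ p v ^ 2) = σ := by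
    rw [cf_sq μ p (by omega), hσ, hτ, tau_sq hpr hp3, ← hμ]
  have hσ1 : σ ≤ 1 := by
    rw [← hσa]
    refine (av_mono (g := fun _ => (1 : ℝ)) fun v => ?_).trans (le_of_eq (av_const 1))
    have := cf_abs μ p (by omega) v
    rw [← sq_abs]
    exact pow_le_one₀ (abs_nonneg _) this
  have hloc : Loc1 (cf μ p) 1 σ := by
    refine ⟨cf_mean μ p, hσa, fun i _ => ?_⟩
    refine (abs_av_le _).trans ?_
    refine (av_mono (g := fun _ => (1 : ℝ)) fun v => ?_).trans (le_of_eq ((av_const 1).trans (by norm_num)))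
    rw [abs_pow]
    exact pow_le_one₀ (abs_nonneg _) (cf_abs μ p (by omega) v)
  -- the independent model
  have hfull : ∀ A ⊆ AA g W p, ∀ i ≤ k, |av (fun c : ℙ (ZMod p) (Fin (n + 1) → ZMod p) → ZMod p => sm (fe _ (ZMod p)) A (fun _ => cf μ p) c ^ i) -
      (gm i : ℝ) * (A.card * σ) ^ (i / 2)| ≤ C * r ^ (i - 1) := by
    intro A hA i hi
    have hAN : (A.card : ℝ) ≤ N := by
      rw [hN]
      exact_mod_cast card_le_card hA
    refine hmom _ _ _ (fe _ (ZMod p)) (fun _ => cf μ p) k (1 : ℝ) r σ le_rfl hr1 hσ0 (by linarith) A (fun S _ _ z => ⟨z, fun _ _ => rfl⟩)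
      (fun t _ => hloc) ?_ ?_ i hi hi
    · rw [hr2]
      have h1 : (0 : ℝ) ≤ A.card := Nat.cast_nonneg _
      nlinarith
    · rw [hr2, one_mul]
      exact hAN
  have hm' := hfull (AA g W p) (Subset.refl _) j hj
  have hdiff := diff_four (g := g) (W := W) (p := p) (d := d) (D := D) hd₀ hd (cf μ p) (cf_abs μ p (by omega)) (2 * m + 4) (by linarith)
    (fun q c hc => (cf_FT μ p (by omega) q c hc).trans (by nlinarith)) r (G + C) (by rw [← hN]; exact hN0) (by rw [hr2, hN]) (by rw [← hs]; exact hrl)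
    (by linarith) j (hj.trans hk) (fun i h1 h2 => hnum i h1 (h2.trans hj))
    (fun A hA i hi => by
      have h1 := hfull A hA i (hi.trans hj)
      have hAN : (A.card : ℝ) ≤ N := by
        rw [hN]
        exact_mod_cast card_le_card hA
      have h2 : (A.card : ℝ) * σ ≤ r ^ 2 := by
        rw [hr2]
        have h1 : (0 : ℝ) ≤ A.card := Nat.cast_nonneg _
        nlinarith
      have h3 : (gm i : ℝ) * (A.card * σ) ^ (i / 2) ≤ G * r ^ i := by
        have h4 : ((A.card : ℝ) * σ) ^ (i / 2) ≤ r ^ i := by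
          refine (pow_le_pow_left₀ (by positivity) h2 (i / 2)).trans ?_
          rw [← pow_mul]
          exact pow_le_pow_right₀ hr1 (by omega)
        exact mul_le_mul (hGj i (hi.trans hj)) h4 (by positivity) hG0
      have h4 : C * r ^ (i - 1) ≤ C * r ^ i := mul_le_mul_of_nonneg_left (pow_le_pow_right₀ hr1 (by omega)) (by linarith)
      have h5 : 0 ≤ (gm i : ℝ) * (A.card * σ) ^ (i / 2) := by positivity
      have h6 := abs_sub_abs_le_abs_sub (av fun c : ℙ (ZMod p) (Fin (n + 1) → ZMod p) → ZMod p => sm (fe _ (ZMod p)) A (fun _ => cf μ p) c ^ i)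
        ((gm i : ℝ) * (A.card * σ) ^ (i / 2))
      rw [abs_of_nonneg h5] at h6
      linarith)
  rw [← hN] at hm'
  have hdiff' : |av (fun c => sm (ev (d := d) g p) (AA g W p) (fun _ => cf μ p) c ^ j) -
      av (fun c : ℙ (ZMod p) (Fin (n + 1) → ZMod p) → ZMod p => sm (fe _ (ZMod p)) (AA g W p) (fun _ => cf μ p) c ^ j)| ≤
        C₂ * (r ^ j / Real.sqrt p) := by
    refine hdiff.trans (mul_le_mul_of_nonneg_right ?_ (by positivity))
    rw [hC₂]
    have h1 : (8 : ℝ) ^ j ≤ 8 ^ k := pow_le_pow_right₀ (by norm_num) hj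
    have h2 : 0 ≤ G + C := by linarith
    have h3 : (2 * (2 * (m : ℝ) + 4)) ^ j ≤ (2 * (2 * m + 4)) ^ k := pow_le_pow_right₀ (by linarith) hj
    gcongr
  obtain ⟨y, hy⟩ : ∃ y : ℝ, y = τ * s := ⟨_, rfl⟩
  have hy0 : 0 < y := by rw [hy]; positivity
  have e0 : mn (fun p c => HC (d := d) g W m D p c ^ j) p = av (fun c => sm (ev (d := d) g p) (AA g W p) (fun _ => cf μ p) c ^ j) / y ^ j := by
    rw [mn_eq]
    have h1 : (fun c => HC (d := d) g W m D p c ^ j) = fun c => (1 / y ^ j) * sm (ev (d := d) g p) (AA g W p) (fun _ => cf μ p) c ^ j := by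
      funext c
      rw [HC_eq m D p hp3, ← hs, ← hτ, ← hμ, ← hy, div_pow]
      ring
    rw [h1, av_mul]
    ring
  rw [e0]
  have hyj : 0 < y ^ j := pow_pos hy0 j
  obtain ⟨v, hv⟩ : ∃ v : ℝ, v = N / (p : ℝ) ^ D * (1 - 1 / p) := ⟨_, rfl⟩
  have hv0 : 0 ≤ v := by
    rw [hv]
    exact mul_nonneg (by positivity) (by linarith)
  have hv2 : v ≤ 2 := by
    have h1 : N / (p : ℝ) ^ D ≤ 2 := by
      rw [div_le_iff₀ hpD]
      exact hN3.2
    rw [hv]
    have h2 : 0 ≤ N / (p : ℝ) ^ D := by positivity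
    nlinarith
  have hv1 : |v - 1| ≤ (2 * C₁ + 2) / Real.sqrt p := by
    have h1 : v - 1 = (N / (p : ℝ) ^ D - 1) - N / (p : ℝ) ^ D * (1 / p) := by
      rw [hv]
      ring
    rw [h1]
    refine (abs_sub _ _).trans ?_
    have h2 : |N / (p : ℝ) ^ D * (1 / p)| ≤ 2 / Real.sqrt p := by
      rw [abs_of_nonneg (by positivity)]
      have h3 : N / (p : ℝ) ^ D ≤ 2 := by
        rw [div_le_iff₀ hpD]
        exact hN3.2
      have h4 : 1 / (p : ℝ) ≤ 1 / Real.sqrt p := by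
        refine one_div_le_one_div_of_le hs0 ?_
        nlinarith
      calc N / (p : ℝ) ^ D * (1 / p) ≤ 2 * (1 / Real.sqrt p) := mul_le_mul h3 h4 hp10.le (by norm_num)
        _ = _ := by ring
    have h3 : (2 * C₁ + 2) / Real.sqrt p = 2 * C₁ / Real.sqrt p + 2 / Real.sqrt p := by ring
    rw [h3]
    linarith
  -- the main term
  have hmain : |(gm j : ℝ) * (N * σ) ^ (j / 2) / y ^ j - (gm j : ℝ)| ≤ G * (k * 2 ^ k * (2 * C₁ + 2)) / Real.sqrt p := by
    by_cases he : Even j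
    · obtain ⟨l, hl⟩ := he
      have hjl : j = 2 * l := by omega
      have h1 : j / 2 = l := by omega
      have h2 : (N * σ) ^ (j / 2) / y ^ j = v ^ l := by
        rw [h1, hjl, pow_mul, hy, ← div_pow]
        congr 1
        have e2 : (τ * s) ^ 2 = τ ^ 2 * s ^ 2 := by ring
        rw [e2, hs2, hv, hσ]
        field_simp
      have h3 : (gm j : ℝ) * (N * σ) ^ (j / 2) / y ^ j - (gm j : ℝ) = (gm j : ℝ) * (v ^ l - 1) := by
        rw [mul_div_assoc, h2]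
        ring
      rw [h3, abs_mul, Nat.abs_cast]
      have h4 := pow_sub_one_le v hv0 hv2 l
      have h5 : (l : ℝ) * 2 ^ l * |v - 1| ≤ k * 2 ^ k * ((2 * C₁ + 2) / Real.sqrt p) := by
        have h6 : (l : ℝ) ≤ k := by exact_mod_cast (by omega : l ≤ k)
        have h7 : (2 : ℝ) ^ l ≤ 2 ^ k := pow_le_pow_right₀ (by norm_num) (by omega)
        have h8 := abs_nonneg (v - 1)
        gcongr
      calc (gm j : ℝ) * |v ^ l - 1| ≤ G * (k * 2 ^ k * ((2 * C₁ + 2) / Real.sqrt p)) :=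
            mul_le_mul (hGj j hj) (h4.trans h5) (abs_nonneg _) hG0
        _ = _ := by ring
    · rw [gm_odd he]
      simp only [Nat.cast_zero, zero_mul, zero_div, sub_zero, abs_zero]
      positivity
  have hry : r / y ≤ 2 * m := by
    rw [div_le_iff₀ hy0, hy]
    calc r ≤ 2 * s := hrs
      _ = (2 * s) * 1 := (mul_one _).symm
      _ ≤ (2 * s) * (m * τ) := mul_le_mul_of_nonneg_left hτm (by positivity)
      _ = _ := by ring
  have hiy : 1 / y ≤ m / Real.sqrt p := by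
    rw [div_le_div_iff₀ hy0 hs0, one_mul, hy]
    calc Real.sqrt p ≤ s * 1 := by rw [mul_one]; exact hsp
      _ ≤ s * (m * τ) := mul_le_mul_of_nonneg_left hτm hs_pos.le
      _ = _ := by ring
  have hry0 : 0 ≤ r / y := by positivity
  have hm1 : (1 : ℝ) ≤ 2 * m := by linarith
  have herr : |av (fun c => sm (ev (d := d) g p) (AA g W p) (fun _ => cf μ p) c ^ j) / y ^ j - (gm j : ℝ) * (N * σ) ^ (j / 2) / y ^ j| ≤
      (C + C₂) * (2 * m) ^ k / Real.sqrt p := by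
    rcases Nat.eq_zero_or_pos j with hj0 | hj0
    · subst hj0
      simp only [pow_zero, div_one, Nat.zero_div, mul_one]
      rw [av_const, gm_zero, Nat.cast_one, sub_self, abs_zero]
      positivity
    · rw [← sub_div, abs_div, abs_of_pos hyj]
      have h0 := abs_sub_le (av fun c => sm (ev (d := d) g p) (AA g W p) (fun _ => cf μ p) c ^ j)
        (av fun c : ℙ (ZMod p) (Fin (n + 1) → ZMod p) → ZMod p => sm (fe _ (ZMod p)) (AA g W p) (fun _ => cf μ p) c ^ j) ((gm j : ℝ) * (N * σ) ^ (j / 2))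
      have h1 : C * r ^ (j - 1) / y ^ j ≤ C * (2 * m) ^ k / Real.sqrt p := by
        have e1 : C * r ^ (j - 1) / y ^ j = C * ((r / y) ^ (j - 1) * (1 / y)) := by
          have : y ^ j = y ^ (j - 1) * y := by
            rw [← pow_succ]
            congr 1
            omega
          rw [this, div_pow]
          field_simp
        rw [e1]
        have h2 : (r / y) ^ (j - 1) ≤ (2 * m) ^ (j - 1) := pow_le_pow_left₀ hry0 hry _
        have h3 : (r / y) ^ (j - 1) * (1 / y) ≤ (2 * m) ^ (j - 1) * (m / Real.sqrt p) :=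
          mul_le_mul h2 hiy (by positivity) (by positivity)
        have h4 : (2 * (m : ℝ)) ^ (j - 1) * m ≤ (2 * m) ^ k := by
          calc (2 * (m : ℝ)) ^ (j - 1) * m ≤ (2 * m) ^ (j - 1) * (2 * m) := mul_le_mul_of_nonneg_left (by linarith) (by positivity)
            _ = (2 * m) ^ (j - 1 + 1) := (pow_succ _ _).symm
            _ ≤ _ := pow_le_pow_right₀ hm1 (by omega)
        calc C * ((r / y) ^ (j - 1) * (1 / y)) ≤ C * ((2 * m) ^ (j - 1) * (m / Real.sqrt p)) := mul_le_mul_of_nonneg_left h3 (by linarith)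
          _ = C * ((2 * m) ^ (j - 1) * m) / Real.sqrt p := by ring
          _ ≤ _ := div_le_div_of_nonneg_right (mul_le_mul_of_nonneg_left h4 (by linarith)) hs0.le
      have h2 : C₂ * (r ^ j / Real.sqrt p) / y ^ j ≤ C₂ * (2 * m) ^ k / Real.sqrt p := by
        have e1 : C₂ * (r ^ j / Real.sqrt p) / y ^ j = C₂ * (r / y) ^ j / Real.sqrt p := by
          rw [div_pow]
          field_simp
        rw [e1]
        refine div_le_div_of_nonneg_right (mul_le_mul_of_nonneg_left ?_ hC₂0) hs0.le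
        exact (pow_le_pow_left₀ hry0 hry j).trans (pow_le_pow_right₀ hm1 hj)
      have h3 : |av (fun c => sm (ev (d := d) g p) (AA g W p) (fun _ => cf μ p) c ^ j) - (gm j : ℝ) * (N * σ) ^ (j / 2)| ≤
          C₂ * (r ^ j / Real.sqrt p) + C * r ^ (j - 1) := by linarith
      have h4 := div_le_div_of_nonneg_right h3 hyj.le
      refine h4.trans ?_
      rw [add_div]
      have h5 : (C + C₂) * (2 * m) ^ k / Real.sqrt p = C * (2 * m) ^ k / Real.sqrt p + C₂ * (2 * m) ^ k / Real.sqrt p := by ring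
      rw [h5]
      linarith
  have hfin := abs_sub_le (av (fun c => sm (ev (d := d) g p) (AA g W p) (fun _ => cf μ p) c ^ j) / y ^ j)
    ((gm j : ℝ) * (N * σ) ^ (j / 2) / y ^ j) (gm j : ℝ)
  have h9 : ((C + C₂) * (2 * m) ^ k + G * (k * 2 ^ k * (2 * C₁ + 2)) + m) / Real.sqrt p =
      (C + C₂) * (2 * m) ^ k / Real.sqrt p + G * (k * 2 ^ k * (2 * C₁ + 2)) / Real.sqrt p + m / Real.sqrt p := by ring
  have h10 : 0 ≤ (m : ℝ) / Real.sqrt p := by positivity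
  rw [h9]
  linarith

theorem near_cov {D p₀ : ℕ} {C₀ : ℝ} (m : ℕ) (hm : 2 ≤ m) (hD : 2 ≤ D) (hsz : Sz g W D p₀ C₀) (k d₀ : ℕ) (hd₀ : 3 ≤ d₀) (hd : ∀ j, d₀ ≤ d j)
    (hk : k ≤ 2 * d₀ + 1) (hnum : ∀ i, d₀ + 1 < i → i ≤ k → 3 * i + 4 * D ≤ D * i + 2 * (d₀ + 1) + 3) :
    ∃ (K : ℝ) (p₁ : ℕ), NearN (HC (d := d) g W m D) k (n + 1) p₁ K := by
  obtain ⟨K, p₁, hK, h⟩ := loc_cov m hm hD hsz k d₀ hd₀ hd hk hnum
  have hmR : (2 : ℝ) ≤ m := by exact_mod_cast hm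
  refine ⟨K, p₁, by linarith, fun p hp u => (HC_abs hm D p hp u).trans ?_, h⟩
  exact mul_le_mul_of_nonneg_right hK (by positivity)

end Pool.Agent.H25CC
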