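import Pool.Agent.H25CC.Four

set_option autoImplicit false
set_option linter.unusedSectionVars false

/-! The number of the `m`-th roots, and its Fourier transform. -/

namespace Pool.Agent.H25CC

open Finset
open Q282.CL (av)

variable (m p : ℕ) [hp : Fact p.Prime]

/-- the number of the `m`-th roots -/
noncomputable def nr (v : ZMod p) : ℕ := (univ.filter (fun w : ZMod p => w ^ m = v)).card

lemma nr_zero (hm : 1 ≤ m) : nr m p 0 = 1 := by
  unfold nr
  rw [card_eq_one]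
  refine ⟨0, ?_⟩
  ext w
  rw [mem_filter, mem_singleton]
  constructor
  · intro h
    exact (pow_eq_zero_iff (by omega)).1 h.2
  · rintro rfl
    exact ⟨mem_univ _, zero_pow (by omega)⟩

lemma sum_nr {M : Type*} [AddCommMonoid M] (F : ZMod p → M) : ∑ v, nr m p v • F v = ∑ w : ZMod p, F (w ^ m) := by
  rw [← sum_fiberwise (univ : Finset (ZMod p)) (fun w : ZMod p => w ^ m) (fun w => F (w ^ m))]
  refine sum_congr rfl fun v _ => ?_
  have h1 : ∀ w ∈ univ.filter (fun w : ZMod p => w ^ m = v), F (w ^ m) = F v := fun w hw => by rw [(mem_filter.1 hw).2]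
  rw [sum_congr rfl h1, sum_const]
  rfl

/-- the number of the roots of unity -/
lemma nr_pow (hm : 1 ≤ m) (w : ZMod p) (hw : w ≠ 0) : nr m p (w ^ m) = Nat.gcd (p - 1) m := by
  classical
  have h1 : nr m p (w ^ m) = (univ.filter (fun x : (ZMod p)ˣ => x ^ m = 1)).card := by
    unfold nr
    symm
    apply card_bij (fun (x : (ZMod p)ˣ) _ => w * (x : ZMod p))
    · intro x hx
      rw [mem_filter] at hx ⊢
      refine ⟨mem_univ _, ?_⟩
      have h2 : ((x : ZMod p)) ^ m = 1 := by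
        have := congrArg (fun y : (ZMod p)ˣ => (y : ZMod p)) hx.2
        simpa using this
      rw [mul_pow, h2, mul_one]
    · intro x _ y _ hxy
      exact Units.ext (mul_left_cancel₀ hw hxy)
    · intro y hy
      rw [mem_filter] at hy
      have hy0 : y ≠ 0 := by
        rintro rfl
        rw [zero_pow (by omega)] at hy
        exact pow_ne_zero m hw hy.2.symm
      have h3 : w⁻¹ * y ≠ 0 := mul_ne_zero (inv_ne_zero hw) hy0
      refine ⟨Units.mk0 (w⁻¹ * y) h3, ?_, ?_⟩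
      · rw [mem_filter]
        refine ⟨mem_univ _, ?_⟩
        ext
        rw [Units.val_pow_eq_pow_val, Units.val_mk0, mul_pow, hy.2, ← mul_pow, inv_mul_cancel₀ hw, one_pow, Units.val_one]
      · rw [Units.val_mk0, ← mul_assoc, mul_inv_cancel₀ hw, one_mul]
  rw [h1]
  have h2 := IsCyclic.card_powMonoidHom_ker (G := (ZMod p)ˣ) m
  rw [Nat.card_eq_fintype_card, Nat.card_eq_fintype_card, ZMod.card_units] at h2
  rw [← h2, ← Fintype.card_subtype]
  exact Fintype.card_congr (Equiv.refl _)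

lemma nr_or (hm : 1 ≤ m) (v : ZMod p) (hv : v ≠ 0) : nr m p v = 0 ∨ nr m p v = Nat.gcd (p - 1) m := by
  by_cases h : ∃ w : ZMod p, w ^ m = v
  · obtain ⟨w, rfl⟩ := h
    right
    apply nr_pow m p hm
    rintro rfl
    exact hv (zero_pow (by omega))
  · left
    unfold nr
    rw [card_eq_zero, filter_eq_empty_iff]
    intro w _ hw
    exact h ⟨w, hw⟩

lemma gcd_le (hm : 1 ≤ m) : Nat.gcd (p - 1) m ≤ m := Nat.gcd_le_right _ (by omega)

lemma nr_le (hm : 1 ≤ m) (v : ZMod p) : nr m p v ≤ m := by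
  by_cases hv : v = 0
  · rw [hv, nr_zero m p hm]; exact hm
  · rcases nr_or m p hm v hv with h | h
    · rw [h]; exact Nat.zero_le _
    · rw [h]; exact gcd_le m p hm

/-- the exponential sum -/
noncomputable def SS (c : ZMod p) : ℂ := ∑ w : ZMod p, ZMod.stdAddChar (c * w ^ m)

lemma SS_inv (c u : ZMod p) (hu : u ≠ 0) : SS m p (c * u ^ m) = SS m p c := by
  unfold SS
  rw [← Equiv.sum_comp (Equiv.mulLeft₀ u hu) (fun w : ZMod p => (ZMod.stdAddChar (c * w ^ m) : ℂ))]
  refine sum_congr rfl fun w _ => ?_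
  have h1 : (Equiv.mulLeft₀ u hu) w = u * w := rfl
  rw [h1, mul_pow, mul_assoc]

lemma SS_sq : ∑ c : ZMod p, ‖SS m p c‖ ^ 2 = p * ∑ w : ZMod p, (nr m p (w ^ m) : ℝ) := by
  have h1 : ((∑ c : ZMod p, ‖SS m p c‖ ^ 2 : ℝ) : ℂ) = ((p * ∑ w : ZMod p, (nr m p (w ^ m) : ℝ) : ℝ) : ℂ) := by
    push_cast
    have h2 : ∀ c : ZMod p, ((‖SS m p c‖ : ℝ) : ℂ) ^ 2 = ∑ w : ZMod p, ∑ w' : ZMod p,
        ZMod.stdAddChar (c * (w ^ m - w' ^ m)) := by
      intro c
      rw [← Complex.mul_conj' (SS m p c)]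
      unfold SS
      rw [map_sum, sum_mul_sum]
      refine sum_congr rfl fun w _ => sum_congr rfl fun w' _ => ?_
      rw [← AddChar.map_neg_eq_conj, ← AddChar.map_add_eq_mul]
      congr 1
      ring
    rw [sum_congr rfl fun c _ => h2 c, sum_comm, mul_sum]
    refine sum_congr rfl fun w _ => ?_
    rw [sum_comm]
    have h3 : ∀ w' : ZMod p, ∑ c : ZMod p, (ZMod.stdAddChar (c * (w ^ m - w' ^ m)) : ℂ) =
        if w' ^ m = w ^ m then (p : ℂ) else 0 := by
      intro w'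
      have := AddChar.sum_mulShift (w ^ m - w' ^ m) (ZMod.isPrimitive_stdAddChar p)
      rw [this, ZMod.card]
      by_cases h : w' ^ m = w ^ m
      · rw [if_pos (by rw [h, sub_self]), if_pos h]
      · rw [if_neg (fun h4 => h (sub_eq_zero.1 h4).symm), if_neg h]; simp
    rw [sum_congr rfl fun w' _ => h3 w', ← sum_filter, sum_const, nsmul_eq_mul, mul_comm]
    rfl
  exact_mod_cast h1

/-- **the bound for the exponential sum** -/
lemma SS_bound (hm : 1 ≤ m) (c : ZMod p) (hc : c ≠ 0) : ‖SS m p c‖ ≤ m * Real.sqrt p := by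
  classical
  have hp1 : (1 : ℝ) < p := by exact_mod_cast hp.out.one_lt
  have hmR : (1 : ℝ) ≤ m := by exact_mod_cast hm
  -- the sum over all shifts
  have h1 : ∑ w : ZMod p, (nr m p (w ^ m) : ℝ) ≤ 1 + (p - 1) * m := by
    rw [← add_sum_erase _ _ (mem_univ (0 : ZMod p)), zero_pow (by omega : m ≠ 0), nr_zero m p hm, Nat.cast_one]
    have h2 : ∀ w ∈ (univ : Finset (ZMod p)).erase 0, (nr m p (w ^ m) : ℝ) ≤ m := fun w _ => by
      exact_mod_cast nr_le m p hm _
    have h3 := sum_le_sum h2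
    rw [sum_const, card_erase_of_mem (mem_univ _), card_univ, ZMod.card, nsmul_eq_mul, Nat.cast_sub hp.out.one_lt.le,
      Nat.cast_one] at h3
    linarith
  have h0 : ‖SS m p 0‖ ^ 2 = (p : ℝ) ^ 2 := by
    unfold SS
    simp
  have h2 : ∑ c ∈ (univ : Finset (ZMod p)).erase 0, ‖SS m p c‖ ^ 2 ≤ p * (p - 1) * (m - 1) := by
    have h3 := SS_sq m p
    rw [← add_sum_erase _ _ (mem_univ (0 : ZMod p)), h0] at h3
    have h4 : (p : ℝ) * ∑ w : ZMod p, (nr m p (w ^ m) : ℝ) ≤ p * (1 + (p - 1) * m) :=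
      mul_le_mul_of_nonneg_left h1 (by linarith)
    nlinarith
  have h3 : ((p : ℝ) - 1) * ‖SS m p c‖ ^ 2 ≤ m * ∑ c ∈ (univ : Finset (ZMod p)).erase 0, ‖SS m p c‖ ^ 2 := by
    have h4 : ∑ u ∈ (univ : Finset (ZMod p)).erase 0, ‖SS m p (c * u ^ m)‖ ^ 2 = ((p : ℝ) - 1) * ‖SS m p c‖ ^ 2 := by
      rw [sum_congr rfl fun u hu => by rw [SS_inv m p c u (mem_erase.1 hu).1], sum_const, card_erase_of_mem (mem_univ _),
        card_univ, ZMod.card, nsmul_eq_mul, Nat.cast_sub hp.out.one_lt.le, Nat.cast_one]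
    rw [← h4, mul_sum]
    have h5 : ∀ u ∈ (univ : Finset (ZMod p)).erase 0, c * u ^ m ∈ (univ : Finset (ZMod p)).erase 0 := by
      intro u hu
      rw [mem_erase] at hu ⊢
      exact ⟨mul_ne_zero hc (pow_ne_zero _ hu.1), mem_univ _⟩
    rw [← sum_fiberwise_of_maps_to h5]
    refine sum_le_sum fun c' hc' => ?_
    rw [sum_congr rfl fun u hu => by rw [(mem_filter.1 hu).2], sum_const, nsmul_eq_mul]
    apply mul_le_mul_of_nonneg_right _ (by positivity)
    have h6 : (((univ : Finset (ZMod p)).erase 0).filter (fun u => c * u ^ m = c')).card ≤ nr m p (c⁻¹ * c') := by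
      unfold nr
      apply card_le_card
      intro u hu
      rw [mem_filter] at hu ⊢
      refine ⟨mem_univ _, ?_⟩
      rw [← hu.2, ← mul_assoc, inv_mul_cancel₀ hc, one_mul]
    exact_mod_cast h6.trans (nr_le m p hm _)
  have h4 : ((p : ℝ) - 1) * ‖SS m p c‖ ^ 2 ≤ ((p : ℝ) - 1) * (m * Real.sqrt p) ^ 2 := by
    rw [mul_pow, Real.sq_sqrt (by linarith)]
    have h5 := mul_le_mul_of_nonneg_left h2 (by linarith : (0 : ℝ) ≤ m)
    have h6 : (m : ℝ) * (p * (p - 1) * (m - 1)) ≤ ((p : ℝ) - 1) * (m ^ 2 * p) := by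
      have e : ((p : ℝ) - 1) * (m ^ 2 * p) = m * (p * (p - 1) * (m - 1)) + (p - 1) * p * m := by ring
      have e2 : 0 ≤ ((p : ℝ) - 1) * p * m := mul_nonneg (mul_nonneg (by linarith) (by linarith)) (by linarith)
      linarith
    linarith
  have h5 : ‖SS m p c‖ ^ 2 ≤ (m * Real.sqrt p) ^ 2 := le_of_mul_le_mul_left h4 (by linarith)
  exact (abs_le_of_sq_le_sq' h5 (by positivity)).2

/-- the normalised local function -/
noncomputable def cf (v : ZMod p) : ℝ := ((nr m p v : ℝ) - 1) / m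

lemma cf_zero (hm : 1 ≤ m) : cf m p 0 = 0 := by
  unfold cf
  rw [nr_zero m p hm]; simp

lemma cf_abs (hm : 1 ≤ m) (v : ZMod p) : |cf m p v| ≤ 1 := by
  have hmR : (1 : ℝ) ≤ m := by exact_mod_cast hm
  have h1 : (nr m p v : ℝ) ≤ m := by exact_mod_cast nr_le m p hm v
  have h2 : (0 : ℝ) ≤ nr m p v := Nat.cast_nonneg _
  unfold cf
  rw [abs_div, abs_of_pos (by linarith : (0 : ℝ) < m), div_le_one (by linarith), abs_le]
  constructor <;> linarith

lemma cf_mean : av (cf m p) = 0 := by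
  have h1 : ∑ v : ZMod p, (nr m p v : ℝ) = p := by
    have h2 := sum_nr m p (fun _ => (1 : ℝ))
    simp only [nsmul_eq_mul, mul_one, sum_const, card_univ, ZMod.card] at h2
    exact h2
  unfold av cf
  rw [← sum_div, sum_sub_distrib, h1, sum_const, card_univ, ZMod.card, nsmul_eq_mul, mul_one, sub_self, zero_div, zero_div]

lemma cf_sq (hm : 1 ≤ m) : av (fun v => cf m p v ^ 2) = ((Nat.gcd (p - 1) m : ℝ) - 1) / m ^ 2 * (1 - 1 / p) := by
  have hmR : (m : ℝ) ≠ 0 := by positivity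
  have hpR : (p : ℝ) ≠ 0 := by exact_mod_cast hp.out.ne_zero
  obtain ⟨g, hg⟩ : ∃ g, g = Nat.gcd (p - 1) m := ⟨_, rfl⟩
  have h0 : ∀ v ∈ (univ : Finset (ZMod p)).erase 0, ((nr m p v : ℝ) - 1) ^ 2 = ((g : ℝ) - 2) * nr m p v + 1 := by
    intro v hv
    rcases nr_or m p hm v (mem_erase.1 hv).1 with h | h
    · rw [h]; push_cast; ring
    · rw [h, ← hg]; ring
  have h1 : ∑ v ∈ (univ : Finset (ZMod p)).erase 0, (nr m p v : ℝ) = p - 1 := by
    have h2 := sum_nr m p (fun _ => (1 : ℝ))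
    simp only [nsmul_eq_mul, mul_one, sum_const, card_univ, ZMod.card] at h2
    rw [← add_sum_erase _ _ (mem_univ (0 : ZMod p)), nr_zero m p hm] at h2
    push_cast at h2
    linarith
  have h2 : ∑ v : ZMod p, ((nr m p v : ℝ) - 1) ^ 2 = ((g : ℝ) - 1) * (p - 1) := by
    rw [← add_sum_erase _ _ (mem_univ (0 : ZMod p)), nr_zero m p hm, sum_congr rfl h0, sum_add_distrib, ← mul_sum, h1,
      sum_const, card_erase_of_mem (mem_univ _), card_univ, ZMod.card, nsmul_eq_mul, Nat.cast_sub hp.out.one_lt.le]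
    push_cast
    ring
  unfold av cf
  rw [← hg, ZMod.card]
  have h3 : ∑ v : ZMod p, (((nr m p v : ℝ) - 1) / m) ^ 2 = (((g : ℝ) - 1) * (p - 1)) / m ^ 2 := by
    rw [← h2, sum_div]
    exact sum_congr rfl fun v _ => div_pow _ _ _
  rw [h3]
  field_simp

/-- the Fourier transforms of the powers -/
lemma cf_FT (hm : 1 ≤ m) (q : ℕ) (c : ZMod p) (hc : c ≠ 0) :
    ‖FT p (fun v => cf m p v ^ q) c‖ ≤ (2 * m + 4) * Real.sqrt p := by
  classical
  have hmR : (1 : ℝ) ≤ m := by exact_mod_cast hm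
  have hp1 : (1 : ℝ) ≤ p := by exact_mod_cast hp.out.one_lt.le
  have hs1 : 1 ≤ Real.sqrt p := Real.one_le_sqrt.2 hp1
  obtain ⟨g, hg⟩ : ∃ g, g = Nat.gcd (p - 1) m := ⟨_, rfl⟩
  have hg1 : 1 ≤ g := by rw [hg]; exact Nat.gcd_pos_of_pos_right _ (by omega)
  have hgm : g ≤ m := by rw [hg]; exact gcd_le m p hm
  have hg1R : (1 : ℝ) ≤ g := by exact_mod_cast hg1
  have hgmR : (g : ℝ) ≤ m := by exact_mod_cast hgm
  obtain ⟨a, ha⟩ : ∃ a : ℝ, a = (-1 / m) ^ q := ⟨_, rfl⟩
  obtain ⟨b, hb⟩ : ∃ b : ℝ, b = ((((g : ℝ) - 1) / m) ^ q - (-1 / m) ^ q) / g := ⟨_, rfl⟩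
  obtain ⟨z, hz⟩ : ∃ z : ℝ, z = cf m p 0 ^ q - a - b := ⟨_, rfl⟩
  have ha1 : |a| ≤ 1 := by
    rw [ha, abs_pow, abs_div, abs_neg, abs_one, abs_of_pos (by linarith : (0 : ℝ) < m)]
    exact pow_le_one₀ (by positivity) (by rw [div_le_one (by linarith)]; exact hmR)
  have hb1 : |b| ≤ 2 := by
    have h1 : |(((g : ℝ) - 1) / m) ^ q| ≤ 1 := by
      rw [abs_pow]
      refine pow_le_one₀ (abs_nonneg _) ?_
      rw [abs_div, abs_of_pos (by linarith : (0 : ℝ) < m), div_le_one (by linarith), abs_of_nonneg (by linarith)]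
      linarith
    rw [hb, abs_div, abs_of_pos (by linarith : (0 : ℝ) < g), div_le_iff₀ (by linarith)]
    have h2 := abs_sub (((((g : ℝ) - 1) / m)) ^ q) ((-1 / m) ^ q)
    rw [← ha] at h2 ⊢
    linarith
  have hz1 : |z| ≤ 4 := by
    have h1 : |cf m p 0 ^ q| ≤ 1 := by
      rw [abs_pow]
      exact pow_le_one₀ (abs_nonneg _) (cf_abs m p hm 0)
    rw [hz]
    have h2 := abs_sub (cf m p 0 ^ q - a) b
    have h3 := abs_sub (cf m p 0 ^ q) a
    linarith
  have hval : ∀ v : ZMod p, cf m p v ^ q = a + b * nr m p v + (if v = 0 then z else 0) := by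
    intro v
    by_cases hv : v = 0
    · rw [if_pos hv, hv, nr_zero m p hm, hz]; push_cast; ring
    · rw [if_neg hv, add_zero]
      rcases nr_or m p hm v hv with h | h
      · unfold cf
        rw [h, ha]; push_cast
        rw [mul_zero, add_zero, zero_sub]
      · rw [← hg] at h
        unfold cf
        rw [h, hb, ← ha]
        have : (g : ℝ) ≠ 0 := by linarith
        field_simp
        ring
  have h1 : FT p (fun v => cf m p v ^ q) c = (b : ℂ) * SS m p (-c) + z := by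
    unfold FT
    have h2 : ∀ v : ZMod p, (((cf m p v ^ q : ℝ)) : ℂ) * ZMod.stdAddChar (-(c * v)) =
        (a : ℂ) * ZMod.stdAddChar (v * (-c)) + (b : ℂ) * (nr m p v • (ZMod.stdAddChar (-c * v) : ℂ)) +
          (if v = 0 then (z : ℂ) else 0) := by
      intro v
      rw [hval v]
      have e1 : -(c * v) = v * (-c) := by ring
      have e2 : -c * v = v * (-c) := by ring
      by_cases hv : v = 0
      · rw [if_pos hv, if_pos hv, e1, e2, hv]
        push_cast
        simp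
      · rw [if_neg hv, if_neg hv, e1, e2, nsmul_eq_mul]
        push_cast
        ring
    rw [sum_congr rfl fun v _ => h2 v, sum_add_distrib, sum_add_distrib, ← mul_sum, ← mul_sum,
      AddChar.sum_mulShift (-c) (ZMod.isPrimitive_stdAddChar p), if_neg (neg_ne_zero.2 hc),
      sum_nr m p (fun v => (ZMod.stdAddChar (-c * v) : ℂ)), sum_ite_eq' univ (0 : ZMod p) (fun _ => (z : ℂ)),
      if_pos (mem_univ _)]
    unfold SS
    simp
  rw [h1]
  refine (norm_add_le _ _).trans ?_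
  rw [norm_mul, Complex.norm_real, Complex.norm_real, Real.norm_eq_abs, Real.norm_eq_abs]
  have h2 := SS_bound m p hm (-c) (neg_ne_zero.2 hc)
  have h3 : |b| * ‖SS m p (-c)‖ ≤ 2 * (m * Real.sqrt p) := mul_le_mul hb1 h2 (norm_nonneg _) (by norm_num)
  nlinarith

end Pool.Agent.H25CC
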